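import Pool.Agent.Helper75.QC.Base
import Pool.Agent.Helper40.SD.Gen

/-! Project TF (MP_e93a6a_ag). Roots of polynomials in two independent elements. -/

set_option autoImplicit false

namespace Pool.Agent.Helper75.TF

open IntermediateField

/-- the polynomial in one variable of the weighted pieces -/
noncomputable def grade {Ω : Type} [Field Ω] (b c : ℕ) :
    MvPolynomial (Fin 2) Ω →ₐ[Ω] Polynomial (MvPolynomial (Fin 2) Ω) :=
  MvPolynomial.aeval fun i =>
    Polynomial.C (MvPolynomial.X i) * Polynomial.X ^ ((![b, c] : Fin 2 → ℕ) i)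

theorem grade_monomial {Ω : Type} [Field Ω] (b c : ℕ) (m : Fin 2 →₀ ℕ) (a : Ω) :
    grade b c (MvPolynomial.monomial m a) =
      Polynomial.C (MvPolynomial.monomial m a) * Polynomial.X ^ (b * m 0 + c * m 1) := by
  rw [grade, MvPolynomial.aeval_monomial, Finsupp.prod_fintype _ _ (fun _ => pow_zero _),
    Fin.prod_univ_two]
  have h1 : (MvPolynomial.monomial m a : MvPolynomial (Fin 2) Ω) =
      MvPolynomial.C a * (MvPolynomial.X 0 ^ m 0 * MvPolynomial.X 1 ^ m 1) := by
    rw [MvPolynomial.monomial_eq, Finsupp.prod_fintype _ _ (fun _ => pow_zero _),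
      Fin.prod_univ_two]
  have h2 : algebraMap Ω (Polynomial (MvPolynomial (Fin 2) Ω)) a =
      Polynomial.C (MvPolynomial.C a) := rfl
  rw [h1, h2]
  simp only [Matrix.cons_val_zero, Matrix.cons_val_one, map_mul, map_pow, mul_pow, pow_add,
    pow_mul]
  ring

theorem coeff_grade {Ω : Type} [Field Ω] (b c : ℕ) (F : MvPolynomial (Fin 2) Ω) (k : ℕ) :
    (grade b c F).coeff k =
      ∑ m ∈ F.support with b * m 0 + c * m 1 = k, MvPolynomial.monomial m (F.coeff m) := by
  classical
  conv_lhs => rw [F.as_sum]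
  rw [map_sum, Polynomial.finsetSum_coeff, Finset.sum_filter]
  refine Finset.sum_congr rfl fun m _ => ?_
  rw [grade_monomial, Polynomial.coeff_C_mul, Polynomial.coeff_X_pow]
  by_cases h : b * m 0 + c * m 1 = k
  · rw [if_pos h.symm, if_pos h, mul_one]
  · rw [if_neg (Ne.symm h), if_neg h, mul_zero]

theorem grade_le {Ω : Type} [Field Ω] {b c D : ℕ} {F : MvPolynomial (Fin 2) Ω}
    (hF : ∀ m ∈ F.support, b * m 0 + c * m 1 ≤ D) : (grade b c F).natDegree ≤ D := by
  classical
  rw [Polynomial.natDegree_le_iff_coeff_eq_zero]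
  intro k hk
  rw [coeff_grade, Finset.filter_eq_empty_iff.2, Finset.sum_empty]
  intro m hm h
  have := hF m hm
  omega

theorem le_grade {Ω : Type} [Field Ω] {b c : ℕ} {F : MvPolynomial (Fin 2) Ω} {m : Fin 2 →₀ ℕ}
    (hm : m ∈ F.support) : b * m 0 + c * m 1 ≤ (grade b c F).natDegree := by
  classical
  refine Polynomial.le_natDegree_of_ne_zero fun h => ?_
  rw [coeff_grade] at h
  have h1 := congrArg (MvPolynomial.coeff m) h
  rw [MvPolynomial.coeff_sum, MvPolynomial.coeff_zero, Finset.sum_eq_single m] at h1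
  · rw [MvPolynomial.coeff_monomial, if_pos rfl] at h1
    exact MvPolynomial.mem_support_iff.1 hm h1
  · intro m' _ hne
    rw [MvPolynomial.coeff_monomial, if_neg hne]
  · intro h2
    exact (h2 (Finset.mem_filter.2 ⟨hm, rfl⟩)).elim

/-- the degree of a root -/
theorem deg_of_pow {Ω : Type} [Field Ω] {b c D k : ℕ} {F G : MvPolynomial (Fin 2) Ω}
    (h : G ^ k = F) (hF : ∀ m ∈ F.support, b * m 0 + c * m 1 ≤ D) (m : Fin 2 →₀ ℕ)
    (hm : m ∈ G.support) : k * (b * m 0 + c * m 1) ≤ D := by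
  have h1 : (grade b c G).natDegree * k ≤ D := by
    have h2 := grade_le hF
    rwa [← h, map_pow, Polynomial.natDegree_pow, mul_comm] at h2
  exact (Nat.mul_le_mul_left k (le_grade hm)).trans (by rwa [mul_comm])

/-- roots of polynomials in independent elements are polynomials -/
theorem exists_poly {Ω K : Type} [Field Ω] [Field K] [Algebra Ω K] {Y Z : K}
    (hYZ : AlgebraicIndependent Ω ![Y, Z]) {k : ℕ} (hk : 0 < k) (F : MvPolynomial (Fin 2) Ω)
    {g : K} (hg : g ∈ adjoin Ω {Y, Z}) (h : g ^ k = MvPolynomial.aeval ![Y, Z] F) :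
    ∃ G : MvPolynomial (Fin 2) Ω, g = MvPolynomial.aeval ![Y, Z] G ∧ G ^ k = F := by
  have hr : Set.range (![Y, Z] : Fin 2 → K) = {Y, Z} := by
    ext a
    simp [eq_comm, or_comm]
  rw [← hr] at hg
  let e := hYZ.aevalEquivField
  obtain ⟨q, hq⟩ : ∃ q : FractionRing (MvPolynomial (Fin 2) Ω), (e q : K) = g :=
    ⟨e.symm ⟨g, hg⟩, by rw [AlgEquiv.apply_symm_apply]⟩
  have hval : ∀ P : MvPolynomial (Fin 2) Ω,
      ((e (algebraMap _ _ P) : adjoin Ω (Set.range ![Y, Z])) : K) =
        MvPolynomial.aeval ![Y, Z] P := by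
    intro P
    exact hYZ.aevalEquivField_algebraMap_apply_coe P
  have h1 : q ^ k = algebraMap _ _ F := by
    apply e.injective
    apply Subtype.ext
    rw [map_pow, hval, ← h, ← hq]
    rfl
  obtain ⟨G, hG⟩ := IsIntegrallyClosed.exists_algebraMap_eq_of_isIntegral_pow
    (R := MvPolynomial (Fin 2) Ω) (x := q) hk (by rw [h1]; exact isIntegral_algebraMap)
  refine ⟨G, ?_, ?_⟩
  · rw [← hq, ← hG, hval]
  · apply IsFractionRing.injective (MvPolynomial (Fin 2) Ω)
      (FractionRing (MvPolynomial (Fin 2) Ω))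
    rw [map_pow, hG, h1]

end Pool.Agent.Helper75.TF
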