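import Pool.Agent.Helper75.QC.Base

/-! Project TF (MP_e93a6a_ag). Pure equations over a field with enough roots of unity. -/

set_option autoImplicit false

namespace Pool.Agent.Helper75.TF

open IntermediateField Polynomial

/-- a field generated by an `n`-th root: the degree divides `n`, and the power with this exponent is
in the base field -/
theorem kummer_deg {F K : Type} [Field F] [Field K] [Algebra F K] {n : ℕ} (hn : 0 < n) {ζ : F}
    (hζ : IsPrimitiveRoot ζ n) (w : K) (hw : w ^ n ∈ (algebraMap F K).range)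
    (hK : F⟮w⟯ = ⊤) :
    w ^ Module.finrank F K ∈ (algebraMap F K).range ∧ Module.finrank F K ∣ n := by
  obtain ⟨a, ha⟩ := hw
  have hNe : NeZero n := ⟨hn.ne'⟩
  have hmon : (X ^ n - C a : F[X]).Monic := monic_X_pow_sub_C a hn.ne'
  have hroot : aeval w (X ^ n - C a) = 0 := by
    rw [map_sub, map_pow, aeval_X, aeval_C, ha, sub_self]
  have hint : IsIntegral F w := ⟨_, hmon, hroot⟩
  have hfin : Module.finrank F K = (minpoly F w).natDegree := by
    rw [← adjoin.finrank hint, hK, finrank_top']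
  by_cases hw0 : w = 0
  · subst hw0
    have h1 : (minpoly F (0 : K)).natDegree = 1 := by
      rw [minpoly.zero, natDegree_X]
    rw [hfin, h1]
    exact ⟨⟨0, by rw [map_zero, pow_one]⟩, one_dvd n⟩
  -- the roots of the minimal polynomial
  have hζK : IsPrimitiveRoot (algebraMap F K ζ) n := hζ.map_of_injective (algebraMap F K).injective
  have hdvd : (minpoly F w).map (algebraMap F K) ∣ X ^ n - C (w ^ n) := by
    have h1 := Polynomial.map_dvd (algebraMap F K) (minpoly.dvd F w hroot)
    rwa [Polynomial.map_sub, Polynomial.map_pow, map_X, map_C, ha] at h1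
  have hne : (X ^ n - C (w ^ n) : K[X]) ≠ 0 := X_pow_sub_C_ne_zero hn _
  have hsplit0 : (X ^ n - C (w ^ n) : K[X]).Splits := by
    rw [X_pow_sub_C_eq_prod hζK hn rfl]
    exact Splits.prod fun i _ => Splits.X_sub_C _
  have hsplit : ((minpoly F w).map (algebraMap F K)).Splits := hsplit0.of_dvd hne hdvd
  set q := (minpoly F w).map (algebraMap F K) with hq
  have hqmon : q.Monic := (minpoly.monic hint).map _
  have hcoef : q.coeff 0 = (-1) ^ q.natDegree * q.roots.prod :=
    hsplit.coeff_zero_eq_prod_roots_of_monic hqmon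
  have hcard : q.roots.card = (minpoly F w).natDegree := by
    rw [← hsplit.natDegree_eq_card_roots, hq, natDegree_map]
  have hrt : ∀ r ∈ q.roots, ∃ b : F, r = algebraMap F K b * w := by
    intro r hr
    have h1 : r ^ n = w ^ n := by
      have h2 : IsRoot (X ^ n - C (w ^ n) : K[X]) r :=
        (isRoot_of_mem_roots hr).dvd hdvd
      have h3 : eval r (X ^ n - C (w ^ n) : K[X]) = 0 := h2
      rw [eval_sub, eval_pow, eval_X, eval_C] at h3
      exact sub_eq_zero.1 h3
    have h2 : (r / w) ^ n = 1 := by rw [div_pow, h1, div_self (pow_ne_zero _ hw0)]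
    obtain ⟨i, -, hi⟩ := hζK.eq_pow_of_pow_eq_one h2
    refine ⟨ζ ^ i, ?_⟩
    rw [map_pow, hi, div_mul_cancel₀ _ hw0]
  have hpr : ∀ s : Multiset K, (∀ r ∈ s, ∃ b : F, r = algebraMap F K b * w) → (∀ r ∈ s, r ≠ 0) →
      ∃ b : F, b ≠ 0 ∧ s.prod = algebraMap F K b * w ^ s.card := by
    intro s
    induction s using Multiset.induction_on with
    | empty => exact fun _ _ => ⟨1, one_ne_zero, by simp⟩
    | cons r s ih =>
      intro h1 h2
      obtain ⟨b, hb0, hb⟩ := ih (fun r hr => h1 r (Multiset.mem_cons_of_mem hr))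
        (fun r hr => h2 r (Multiset.mem_cons_of_mem hr))
      obtain ⟨c, hc⟩ := h1 r (Multiset.mem_cons_self r s)
      have hc0 : c ≠ 0 := by
        rintro rfl
        rw [map_zero, zero_mul] at hc
        exact h2 r (Multiset.mem_cons_self r s) hc
      refine ⟨c * b, mul_ne_zero hc0 hb0, ?_⟩
      rw [Multiset.prod_cons, Multiset.card_cons, hb, hc, map_mul, pow_succ]
      ring
  have hroot0 : ∀ r ∈ q.roots, r ≠ 0 := by
    rintro r hr rfl
    have h2 : IsRoot (X ^ n - C (w ^ n) : K[X]) 0 := (isRoot_of_mem_roots hr).dvd hdvd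
    have h3 : eval 0 (X ^ n - C (w ^ n) : K[X]) = 0 := h2
    rw [eval_sub, eval_pow, eval_X, eval_C, zero_pow hn.ne', zero_sub, neg_eq_zero] at h3
    exact hw0 (pow_eq_zero_iff hn.ne' |>.1 h3)
  obtain ⟨b, hb0, hb⟩ := hpr q.roots hrt hroot0
  have h1 : w ^ Module.finrank F K ∈ (algebraMap F K).range := by
    rw [hb, hcard, ← hfin, hq, coeff_map, natDegree_map, ← hfin] at hcoef
    refine ⟨(minpoly F w).coeff 0 / ((-1) ^ Module.finrank F K * b), ?_⟩
    have h2 : (algebraMap F K) ((-1) ^ Module.finrank F K * b) ≠ 0 := by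
      rw [_root_.map_ne_zero]
      exact mul_ne_zero (pow_ne_zero _ (by simp)) hb0
    rw [map_div₀, div_eq_iff h2, hcoef, map_mul, map_pow, map_neg, map_one]
    ring
  refine ⟨h1, ?_⟩
  -- the greatest common divisor
  obtain ⟨d, hd⟩ : ∃ d, d = Module.finrank F K := ⟨_, rfl⟩
  rw [← hd] at h1 ⊢
  have hd0 : 0 < d := by
    rw [hd, hfin]
    exact minpoly.natDegree_pos hint
  have hg : w ^ (d.gcd n) ∈ (algebraMap F K).range := by
    have h2 : w ^ ((d.gcd n : ℕ) : ℤ) ∈ (algebraMap F K).fieldRange := by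
      rw [Nat.gcd_eq_gcd_ab, zpow_add₀ hw0, zpow_mul, zpow_mul]
      refine mul_mem (zpow_mem ?_ _) (zpow_mem ?_ _)
      · rw [zpow_natCast]
        exact h1
      · rw [zpow_natCast]
        exact ⟨a, ha⟩
    rw [zpow_natCast] at h2
    exact h2
  obtain ⟨c, hc⟩ := hg
  have hg0 : 0 < d.gcd n := Nat.gcd_pos_of_pos_right _ hn
  have h3 : d ≤ d.gcd n := by
    have h4 : aeval w (X ^ (d.gcd n) - C c : F[X]) = 0 := by
      rw [map_sub, map_pow, aeval_X, aeval_C, hc, sub_self]
    have h5 := natDegree_le_of_dvd (minpoly.dvd F w h4) (X_pow_sub_C_ne_zero hg0 c)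
    rw [natDegree_X_pow_sub_C, ← hfin, ← hd] at h5
    exact h5
  have h6 : d.gcd n = d := le_antisymm (Nat.gcd_le_left n hd0) h3
  rw [← h6]
  exact Nat.gcd_dvd_right d n

end Pool.Agent.Helper75.TF
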